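import Pool.Agent.H62.LV.Base

/-!
Part P8 of the Lotka-Volterra control problem: the resolvent `(K - ∂ₓₓ)⁻¹` on `[0, ℓ]` with
boundary values `A`, `B`, and the maximum principle in integrated form.
-/

namespace Pool.Agent.H62.LV

open MeasureTheory Set Filter Topology

private theorem P8_int {C : ℝ} {H g : ℝ → ℝ} (hg : Continuous g) (hm : Measurable H)
    (hC : ∀ x, |H x| ≤ C) (x y : ℝ) : IntervalIntegrable (fun s => g s * H s) volume x y := by
  have h1 : IntervalIntegrable H volume x y := by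
    have h2 : IntervalIntegrable (fun _ : ℝ => C) volume x y := intervalIntegrable_const
    exact h2.mono_fun hm.aestronglyMeasurable
      (Eventually.of_forall fun s => by
        show ‖H s‖ ≤ ‖C‖
        rw [Real.norm_eq_abs, Real.norm_eq_abs]
        exact (hC s).trans (le_abs_self C))
  exact h1.continuousOn_mul hg.continuousOn

private theorem P8_split {k : ℝ} {H : ℝ → ℝ}
    (h1 : ∀ x y, IntervalIntegrable (fun s => Real.cosh (k * s) * H s) volume x y)
    (h2 : ∀ x y, IntervalIntegrable (fun s => Real.sinh (k * s) * H s) volume x y) (x : ℝ) :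
    ∫ s in (0 : ℝ)..x, Real.sinh (k * (x - s)) * H s =
      Real.sinh (k * x) * (∫ s in (0 : ℝ)..x, Real.cosh (k * s) * H s) -
      Real.cosh (k * x) * (∫ s in (0 : ℝ)..x, Real.sinh (k * s) * H s) := by
  rw [← intervalIntegral.integral_const_mul, ← intervalIntegral.integral_const_mul,
    ← intervalIntegral.integral_sub ((h1 0 x).const_mul _) ((h2 0 x).const_mul _)]
  congr 1
  ext s
  have : k * (x - s) = k * x - k * s := by ring
  rw [this, Real.sinh_sub]
  ring

theorem TK_deriv {k ℓ A B : ℝ} (hk : 0 < k) (hℓ : 0 < ℓ) {H : ℝ → ℝ} (hH : Continuous H) :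
    ∃ u' : ℝ → ℝ, (∀ x, HasDerivAt (TK k ℓ A B H) (u' x) x) ∧
      ∀ x, HasDerivAt u' (k ^ 2 * TK k ℓ A B H x - H x) x := by
  set S := Real.sinh (k * ℓ) with hS
  set c₁ := B + (1 / k) * ∫ s in (0 : ℝ)..ℓ, Real.sinh (k * (ℓ - s)) * H s with hc
  set P : ℝ → ℝ := fun x => ∫ s in (0 : ℝ)..x, Real.cosh (k * s) * H s with hP
  set Q : ℝ → ℝ := fun x => ∫ s in (0 : ℝ)..x, Real.sinh (k * s) * H s with hQ
  have hcosh : Continuous fun s : ℝ => Real.cosh (k * s) * H s :=
    (Real.continuous_cosh.comp (continuous_const.mul continuous_id)).mul hH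
  have hsinh : Continuous fun s : ℝ => Real.sinh (k * s) * H s :=
    (Real.continuous_sinh.comp (continuous_const.mul continuous_id)).mul hH
  have hsplit := P8_split (k := k) (H := H) (fun x y => hcosh.intervalIntegrable x y)
    (fun x y => hsinh.intervalIntegrable x y)
  have hPd : ∀ x, HasDerivAt P (Real.cosh (k * x) * H x) x := fun x =>
    intervalIntegral.integral_hasDerivAt_right (hcosh.intervalIntegrable 0 x)
      hcosh.stronglyMeasurable.stronglyMeasurableAtFilter hcosh.continuousAt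
  have hQd : ∀ x, HasDerivAt Q (Real.sinh (k * x) * H x) x := fun x =>
    intervalIntegral.integral_hasDerivAt_right (hsinh.intervalIntegrable 0 x)
      hsinh.stronglyMeasurable.stronglyMeasurableAtFilter hsinh.continuousAt
  have hsd : ∀ x, HasDerivAt (fun x => Real.sinh (k * x)) (k * Real.cosh (k * x)) x := by
    intro x
    have h := ((hasDerivAt_id x).const_mul k).sinh
    simp only [id, mul_one] at h
    rw [mul_comm]; exact h
  have hcd : ∀ x, HasDerivAt (fun x => Real.cosh (k * x)) (k * Real.sinh (k * x)) x := by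
    intro x
    have h := ((hasDerivAt_id x).const_mul k).cosh
    simp only [id, mul_one] at h
    rw [mul_comm]; exact h
  have hsd' : ∀ x, HasDerivAt (fun x => Real.sinh (k * (ℓ - x)))
      (-(k * Real.cosh (k * (ℓ - x)))) x := by
    intro x
    have h := (((hasDerivAt_id x).const_sub ℓ).const_mul k).sinh
    simp only [id] at h
    convert h using 1
    ring
  have hcd' : ∀ x, HasDerivAt (fun x => Real.cosh (k * (ℓ - x)))
      (-(k * Real.sinh (k * (ℓ - x)))) x := by
    intro x
    have h := (((hasDerivAt_id x).const_sub ℓ).const_mul k).cosh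
    simp only [id] at h
    convert h using 1
    ring
  have hTK : TK k ℓ A B H = fun x => -(1 / k) * (Real.sinh (k * x) * P x -
      Real.cosh (k * x) * Q x) + c₁ * (Real.sinh (k * x) / S) +
      A * (Real.sinh (k * (ℓ - x)) / S) := by
    ext x
    rw [TK, hsplit x]
  refine ⟨fun x => -(Real.cosh (k * x) * P x - Real.sinh (k * x) * Q x) +
    c₁ * (k * Real.cosh (k * x) / S) + A * (-(k * Real.cosh (k * (ℓ - x))) / S), ?_, ?_⟩
  · intro x
    rw [hTK]
    have h1 := (((hsd x).mul (hPd x)).sub ((hcd x).mul (hQd x))).const_mul (-(1 / k))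
    have h2 := ((hsd x).div_const S).const_mul c₁
    have h3 := ((hsd' x).div_const S).const_mul A
    refine HasDerivAt.congr_deriv ((h1.add h2).add h3) ?_
    field_simp
    ring
  · intro x
    rw [hTK]
    have h1 := (((hcd x).mul (hPd x)).sub ((hsd x).mul (hQd x))).neg
    have h2 := (((hcd x).const_mul k).div_const S).const_mul c₁
    have h3 := ((((hcd' x).const_mul k).neg).div_const S).const_mul A
    refine HasDerivAt.congr_deriv ((h1.add h2).add h3) ?_
    have e := Real.cosh_sq (k * x)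
    field_simp
    linear_combination (-(H x)) * e

theorem TK_bdry {k ℓ A B : ℝ} (hk : 0 < k) (hℓ : 0 < ℓ) (H : ℝ → ℝ) :
    TK k ℓ A B H 0 = A ∧ TK k ℓ A B H ℓ = B := by
  have hS : Real.sinh (k * ℓ) ≠ 0 := by
    have : 0 < Real.sinh (k * ℓ) := Real.sinh_pos_iff.mpr (mul_pos hk hℓ)
    exact this.ne'
  constructor
  · simp [TK, div_self hS]
  · simp [TK, div_self hS]

theorem TK_continuous {k ℓ A B C : ℝ} (hk : 0 < k) (hℓ : 0 < ℓ) {H : ℝ → ℝ}
    (hm : Measurable H) (hC : ∀ x, |H x| ≤ C) : Continuous (TK k ℓ A B H) := by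
  have hcosh : ∀ x y, IntervalIntegrable (fun s => Real.cosh (k * s) * H s) volume x y :=
    P8_int (Real.continuous_cosh.comp (continuous_const.mul continuous_id)) hm hC
  have hsinh : ∀ x y, IntervalIntegrable (fun s => Real.sinh (k * s) * H s) volume x y :=
    P8_int (Real.continuous_sinh.comp (continuous_const.mul continuous_id)) hm hC
  have hsplit := P8_split hcosh hsinh
  have hTK : TK k ℓ A B H = fun x => -(1 / k) * (Real.sinh (k * x) *
      (∫ s in (0 : ℝ)..x, Real.cosh (k * s) * H s) -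
      Real.cosh (k * x) * (∫ s in (0 : ℝ)..x, Real.sinh (k * s) * H s)) +
      (B + (1 / k) * ∫ s in (0 : ℝ)..ℓ, Real.sinh (k * (ℓ - s)) * H s) *
      (Real.sinh (k * x) / Real.sinh (k * ℓ)) +
      A * (Real.sinh (k * (ℓ - x)) / Real.sinh (k * ℓ)) := by
    ext x
    rw [TK, hsplit x]
  rw [hTK]
  have hP := intervalIntegral.continuous_primitive hcosh 0
  have hQ := intervalIntegral.continuous_primitive hsinh 0
  have h1 : Continuous fun x : ℝ => Real.sinh (k * x) :=
    Real.continuous_sinh.comp (continuous_const.mul continuous_id)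
  have h2 : Continuous fun x : ℝ => Real.cosh (k * x) :=
    Real.continuous_cosh.comp (continuous_const.mul continuous_id)
  have h3 : Continuous fun x : ℝ => Real.sinh (k * (ℓ - x)) :=
    Real.continuous_sinh.comp (continuous_const.mul (continuous_const.sub continuous_id))
  exact ((continuous_const.mul ((h1.mul hP).sub (h2.mul hQ))).add
    (continuous_const.mul (h1.div_const _))).add (continuous_const.mul (h3.div_const _))

private theorem P8_dct {k ℓ C : ℝ} {H : ℕ → ℝ → ℝ} {H' : ℝ → ℝ}
    (hm : ∀ n, Measurable (H n)) (hC : ∀ n x, |H n x| ≤ C)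
    (hlim : ∀ x ∈ Icc 0 ℓ, Tendsto (fun n => H n x) atTop (𝓝 (H' x))) {x : ℝ}
    (hx : x ∈ Icc 0 ℓ) :
    Tendsto (fun n => ∫ s in (0 : ℝ)..x, Real.sinh (k * (x - s)) * H n s) atTop
      (𝓝 (∫ s in (0 : ℝ)..x, Real.sinh (k * (x - s)) * H' s)) := by
  have hcont : Continuous fun s : ℝ => Real.sinh (k * (x - s)) :=
    Real.continuous_sinh.comp (continuous_const.mul (continuous_const.sub continuous_id))
  refine intervalIntegral.tendsto_integral_filter_of_dominated_convergence
    (fun s => |Real.sinh (k * (x - s))| * C) ?_ ?_ ?_ ?_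
  · exact Eventually.of_forall fun n =>
      (hcont.measurable.mul (hm n)).aestronglyMeasurable
  · refine Eventually.of_forall fun n => Eventually.of_forall fun s _ => ?_
    rw [Real.norm_eq_abs, abs_mul]
    exact mul_le_mul_of_nonneg_left (hC n s) (abs_nonneg _)
  · exact (hcont.abs.mul continuous_const).intervalIntegrable _ _
  · refine Eventually.of_forall fun s hs => ?_
    rw [uIoc_of_le hx.1] at hs
    exact (hlim s ⟨hs.1.le, hs.2.trans hx.2⟩).const_mul _

theorem TK_tendsto {k ℓ A B C : ℝ} (hk : 0 < k) (hℓ : 0 < ℓ) {H : ℕ → ℝ → ℝ} {H' : ℝ → ℝ}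
    (hm : ∀ n, Measurable (H n)) (hC : ∀ n x, |H n x| ≤ C)
    (hlim : ∀ x ∈ Icc 0 ℓ, Tendsto (fun n => H n x) atTop (𝓝 (H' x))) {x : ℝ}
    (hx : x ∈ Icc 0 ℓ) :
    Tendsto (fun n => TK k ℓ A B (H n) x) atTop (𝓝 (TK k ℓ A B H' x)) := by
  unfold TK
  have h1 := P8_dct (k := k) hm hC hlim hx
  have h2 := P8_dct (k := k) hm hC hlim (x := ℓ) ⟨hℓ.le, le_refl ℓ⟩
  exact ((h1.const_mul _).add ((tendsto_const_nhds.add (h2.const_mul _)).mul_const _)).add
    tendsto_const_nhds

/-- maximum principle, integrated form (the derivative `D` may jump downwards) -/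
theorem max_principle {K ℓ : ℝ} (hK : 0 < K) (hℓ : 0 < ℓ) {u D : ℝ → ℝ}
    (hu : ContinuousOn u (Icc 0 ℓ)) (hDi : IntervalIntegrable D volume 0 ℓ)
    (h1 : ∀ x y, 0 ≤ x → x ≤ y → y ≤ ℓ → u y - u x = ∫ s in x..y, D s)
    (h2 : ∀ x y, 0 ≤ x → x ≤ y → y ≤ ℓ → D y - D x ≤ ∫ s in x..y, K * u s)
    (h0 : 0 ≤ u 0) (hend : 0 ≤ u ℓ) : ∀ x ∈ Icc 0 ℓ, 0 ≤ u x := by
  by_contra hcon
  push Not at hcon
  obtain ⟨z, hz, hzn⟩ := hcon
  obtain ⟨x₀, hx₀, hmin⟩ := isCompact_Icc.exists_isMinOn (nonempty_Icc.mpr hℓ.le) hu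
  have hmin' : ∀ y ∈ Icc 0 ℓ, u x₀ ≤ u y := fun y hy => hmin hy
  have hm : u x₀ < 0 := (hmin' z hz).trans_lt hzn
  have hx0 : 0 < x₀ := by
    rcases hx₀.1.lt_or_eq with h | h
    · exact h
    · rw [← h] at hm; linarith
  have hxl : x₀ < ℓ := by
    rcases hx₀.2.lt_or_eq with h | h
    · exact h
    · rw [h] at hm; linarith
  -- a neighbourhood where `u ≤ u x₀ / 2`
  have hca : ContinuousAt u x₀ := hu.continuousAt (Icc_mem_nhds hx0 hxl)
  have hev : ∀ᶠ s in 𝓝 x₀, u s < u x₀ / 2 := by
    have : u x₀ < u x₀ / 2 := by linarith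
    exact hca.eventually_lt_const this
  obtain ⟨δ₀, hδ₀, hball⟩ := Metric.eventually_nhds_iff.mp hev
  set δ := min (δ₀ / 2) (min x₀ (ℓ - x₀)) with hδ
  have hδpos : 0 < δ := by
    rw [hδ]
    exact lt_min (by linarith) (lt_min hx0 (by linarith))
  have hδ1 : δ ≤ δ₀ / 2 := min_le_left _ _
  have hδ2 : δ ≤ x₀ := (min_le_right _ _).trans (min_le_left _ _)
  have hδ3 : δ ≤ ℓ - x₀ := (min_le_right _ _).trans (min_le_right _ _)
  have hu' : ∀ s ∈ Icc (x₀ - δ) (x₀ + δ), u s ≤ u x₀ / 2 := by
    intro s hs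
    have : dist s x₀ < δ₀ := by
      rw [Real.dist_eq, abs_lt]
      constructor <;> linarith [hs.1, hs.2]
    exact (hball this).le
  have hui : ∀ x y, 0 ≤ x → x ≤ y → y ≤ ℓ → IntervalIntegrable (fun s => K * u s) volume x y := by
    intro x y hx hxy hy
    refine (ContinuousOn.intervalIntegrable ?_).const_mul K
    rw [uIcc_of_le hxy]
    exact hu.mono (Icc_subset_Icc hx hy)
  have hDi' : ∀ x y, 0 ≤ x → x ≤ y → y ≤ ℓ → IntervalIntegrable D volume x y := by
    intro x y hx hxy hy
    refine hDi.mono_set ?_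
    rw [uIcc_of_le hxy, uIcc_of_le hℓ.le]
    exact Icc_subset_Icc hx hy
  -- the derivative decreases with slope at least `c`
  set c := -(K * (u x₀ / 2)) with hc
  have hcpos : 0 < c := by
    rw [hc]
    have : K * (u x₀ / 2) < 0 := mul_neg_of_pos_of_neg hK (by linarith)
    linarith
  have hD : ∀ x y, x₀ - δ ≤ x → x ≤ y → y ≤ x₀ + δ → D y - D x ≤ -c * (y - x) := by
    intro x y hx hxy hy
    have hx' : 0 ≤ x := by linarith
    have hy' : y ≤ ℓ := by linarith
    refine (h2 x y hx' hxy hy').trans ?_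
    have : ∫ s in x..y, K * u s ≤ ∫ _ in x..y, -c := by
      refine intervalIntegral.integral_mono_on hxy (hui x y hx' hxy hy')
        intervalIntegrable_const ?_
      intro s hs
      have := hu' s ⟨by linarith [hs.1], by linarith [hs.2]⟩
      rw [hc]
      have := mul_le_mul_of_nonneg_left this hK.le
      linarith
    refine this.trans ?_
    rw [intervalIntegral.integral_const, smul_eq_mul]
    linarith
  -- `D x₀ ≥ 0`
  have hD0 : 0 ≤ D x₀ := by
    have ha := hmin' (x₀ + δ) ⟨by linarith, by linarith⟩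
    have hb := h1 x₀ (x₀ + δ) hx0.le (by linarith) (by linarith)
    have hc' : ∫ s in x₀..(x₀ + δ), D s ≤ ∫ _ in x₀..(x₀ + δ), D x₀ := by
      refine intervalIntegral.integral_mono_on (by linarith)
        (hDi' _ _ hx0.le (by linarith) (by linarith)) intervalIntegrable_const ?_
      intro s hs
      have := hD x₀ s (by linarith) hs.1 hs.2
      nlinarith [mul_nonneg hcpos.le (sub_nonneg.mpr hs.1)]
    rw [intervalIntegral.integral_const, smul_eq_mul] at hc'
    have : 0 ≤ (x₀ + δ - x₀) * D x₀ := by linarith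
    have h3 : 0 < x₀ + δ - x₀ := by linarith
    exact nonneg_of_mul_nonneg_right this h3
  -- contradiction on the left
  have ha := hmin' (x₀ - δ) ⟨by linarith, by linarith⟩
  have hb := h1 (x₀ - δ) x₀ (by linarith) (by linarith) hxl.le
  have hc' : ∫ s in (x₀ - δ)..x₀, c * (x₀ - s) ≤ ∫ s in (x₀ - δ)..x₀, D s := by
    refine intervalIntegral.integral_mono_on (by linarith)
      (Continuous.intervalIntegrable (by fun_prop) _ _)
      (hDi' _ _ (by linarith) (by linarith) hxl.le) ?_
    intro s hs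
    have := hD s x₀ hs.1 hs.2 (by linarith)
    linarith
  have hd : ∫ s in (x₀ - δ)..x₀, c * (x₀ - s) = c * (δ ^ 2 / 2) := by
    rw [intervalIntegral.integral_const_mul, intervalIntegral.integral_sub
      (f := fun _ => x₀) (g := fun s => s)
      intervalIntegrable_const (Continuous.intervalIntegrable continuous_id' _ _),
      intervalIntegral.integral_const, integral_id, smul_eq_mul]
    ring
  rw [hd] at hc'
  have : 0 < c * (δ ^ 2 / 2) := by positivity
  linarith

end Pool.Agent.H62.LV
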