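import Pool.Agent.H62.LV.Base

/-!
Part P3 of the Lotka-Volterra control problem: variation of constants in integral form.
-/

namespace Pool.Agent.H62.LV

open MeasureTheory Set Filter Topology

theorem voc {a b : ℝ → ℝ} {a₀ μ ν T : ℝ} (hT : 0 < T)
    (hb : IntervalIntegrable b volume 0 T) (ha : IntervalIntegrable a volume 0 T)
    (h : ∀ t ∈ Ioc 0 T, a t = a₀ + ∫ s in (0 : ℝ)..t, (-μ * a s + b s)) :
    a T = Real.exp (-ν * T) * a₀ +
      ∫ s in (0 : ℝ)..T, Real.exp (-ν * (T - s)) * (b s + (ν - μ) * a s) := by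
  set c : ℝ → ℝ := fun s => -μ * a s + b s with hc
  have hci : IntervalIntegrable c volume 0 T := (ha.const_mul (-μ)).add hb
  set g : ℝ → ℝ := fun t => a₀ + ∫ s in (0 : ℝ)..t, c s with hg
  set f : ℝ → ℝ := fun t => Real.exp (ν * t) with hf
  have hgac : AbsolutelyContinuousOnInterval g 0 T := by
    have h1 := hci.absolutelyContinuousOnInterval_intervalIntegral (c := 0) (by simp)
    have h2 : AbsolutelyContinuousOnInterval (fun _ : ℝ => a₀) 0 T :=
      (contDiff_const.contDiffOn (n := 1)).absolutelyContinuousOnInterval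
    exact h2.add h1
  have hfac : AbsolutelyContinuousOnInterval f 0 T := by
    have : ContDiff ℝ 1 f := by
      rw [hf]; fun_prop
    exact this.contDiffOn.absolutelyContinuousOnInterval
  have key := AbsolutelyContinuousOnInterval.integral_deriv_mul_eq_sub hfac hgac
  have hfd : ∀ x, deriv f x = ν * Real.exp (ν * x) := by
    intro x
    have : HasDerivAt f (Real.exp (ν * x) * (ν * 1)) x :=
      ((hasDerivAt_id x).const_mul ν).exp
    rw [this.deriv]; ring
  have hae : ∀ᵐ x, x ∈ uIcc 0 T → HasDerivAt (fun t => ∫ s in (0 : ℝ)..t, c s) (c x) x := by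
    filter_upwards [hci.ae_hasDerivAt_integral] with x hx hxm
    exact hx hxm 0 (by simp)
  have hcongr : ∫ x in (0 : ℝ)..T, deriv f x * g x + f x * deriv g x =
      ∫ s in (0 : ℝ)..T, Real.exp (ν * s) * (b s + (ν - μ) * a s) := by
    apply intervalIntegral.integral_congr_ae
    filter_upwards [hae] with x hx hxm
    have hxm' : x ∈ Ioc 0 T := by rwa [uIoc_of_le hT.le] at hxm
    have h1 : HasDerivAt g (c x) x := (hx (uIoc_subset_uIcc hxm)).const_add a₀
    have h2 : g x = a x := (h x hxm').symm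
    rw [h1.deriv, h2, hfd, hf, hc]
    ring
  rw [hcongr] at key
  have hgT : g T = a T := (h T ⟨hT, le_refl T⟩).symm
  have hg0 : g 0 = a₀ := by simp [hg]
  rw [hgT, hg0] at key
  have hf0 : f 0 = 1 := by simp [hf]
  rw [hf0, one_mul] at key
  have e1 : ∫ s in (0 : ℝ)..T, Real.exp (-ν * (T - s)) * (b s + (ν - μ) * a s) =
      Real.exp (-ν * T) * ∫ s in (0 : ℝ)..T, Real.exp (ν * s) * (b s + (ν - μ) * a s) := by
    rw [← intervalIntegral.integral_const_mul]
    congr 1
    ext s
    rw [← mul_assoc, ← Real.exp_add]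
    congr 2
    ring
  rw [e1, key, hf]
  have e2 : Real.exp (-ν * T) * Real.exp (ν * T) = 1 := by
    rw [← Real.exp_add]; simp
  linear_combination (-(a T)) * e2

end Pool.Agent.H62.LV
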