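import Pool.Agent.Helper7.LV.P5

/-!
Part P6 of the Lotka-Volterra control problem: existence for the cooperative system with zero
boundary data (monotone iteration).
-/

namespace Pool.Agent.H62.LV

open MeasureTheory Set Filter Topology

/-- restriction of a function to `(0, ∞) × [0, L]` -/
private noncomputable def P6_cut (L : ℝ) (g : ℝ → ℝ → ℝ) (t x : ℝ) : ℝ :=
  open Classical in if 0 < t ∧ x ∈ Icc 0 L then g t x else 0

/-- the iteration -/
private noncomputable def P6_it (a b L : ℝ) (p₀ q₀ : ℝ → ℝ) : ℕ → (ℝ → ℝ → ℝ) × (ℝ → ℝ → ℝ)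
  | 0 => (fun _ _ => 1, fun _ _ => 1)
  | n + 1 =>
    (P6_cut L (mild L (1 + a + b) p₀ fun s x => F₁ a ((P6_it a b L p₀ q₀ n).1 s x)
        ((P6_it a b L p₀ q₀ n).2 s x) + (1 + a + b) * (P6_it a b L p₀ q₀ n).1 s x),
     P6_cut L (mild L (1 + a + b) q₀ fun s x => F₂ b ((P6_it a b L p₀ q₀ n).1 s x)
        ((P6_it a b L p₀ q₀ n).2 s x) + (1 + a + b) * (P6_it a b L p₀ q₀ n).2 s x))

private theorem P6_F₁ {a b p q : ℝ} (ha : 0 < a) (hb : 0 < b) (hp : p ∈ Icc (0 : ℝ) 1)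
    (hq : q ∈ Icc (0 : ℝ) 1) :
    0 ≤ F₁ a p q + (1 + a + b) * p ∧ F₁ a p q + (1 + a + b) * p ≤ 1 + a + b := by
  obtain ⟨h1, h2⟩ := hp
  obtain ⟨h3, h4⟩ := hq
  unfold F₁
  constructor
  · nlinarith [mul_nonneg h1 (by linarith : 0 ≤ 1 - p), mul_nonneg h1 hb.le,
      mul_nonneg h1 (mul_nonneg ha.le h3)]
  · nlinarith [mul_nonneg h1 (by linarith : 0 ≤ 1 - p),
      mul_nonneg (mul_nonneg ha.le h1) (by linarith : 0 ≤ 1 - q),
      mul_nonneg ha.le (by linarith : 0 ≤ 1 - p), mul_nonneg hb.le (by linarith : 0 ≤ 1 - p),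
      mul_nonneg (by linarith : 0 ≤ 1 - p) (by linarith : 0 ≤ 1 - p)]

private theorem P6_F₂ {a b p q : ℝ} (ha : 0 < a) (hb : 0 < b) (hp : p ∈ Icc (0 : ℝ) 1)
    (hq : q ∈ Icc (0 : ℝ) 1) :
    0 ≤ F₂ b p q + (1 + a + b) * q ∧ F₂ b p q + (1 + a + b) * q ≤ 1 + a + b := by
  obtain ⟨h1, h2⟩ := hp
  obtain ⟨h3, h4⟩ := hq
  unfold F₂
  constructor
  · nlinarith [mul_nonneg (mul_nonneg hb.le h1) (by linarith : 0 ≤ 1 - q), mul_nonneg ha.le h3,
      mul_nonneg hb.le h3, mul_nonneg h3 h3]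
  · nlinarith [mul_nonneg (mul_nonneg hb.le (by linarith : 0 ≤ 1 - p)) (by linarith : 0 ≤ 1 - q),
      mul_nonneg ha.le (by linarith : 0 ≤ 1 - q), mul_nonneg h3 (by linarith : 0 ≤ 1 - q),
      mul_nonneg hb.le (by linarith : 0 ≤ 1 - q)]

/-- the sources are monotone -/
private theorem P6_mono {a b p q p' q' : ℝ} (ha : 0 < a) (hb : 0 < b) (hp : p ∈ Icc (0 : ℝ) 1)
    (hq : q ∈ Icc (0 : ℝ) 1) (hp' : p' ∈ Icc (0 : ℝ) 1) (hq' : q' ∈ Icc (0 : ℝ) 1)
    (h1 : p ≤ p') (h2 : q ≤ q') :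
    F₁ a p q + (1 + a + b) * p ≤ F₁ a p' q' + (1 + a + b) * p' ∧
    F₂ b p q + (1 + a + b) * q ≤ F₂ b p' q' + (1 + a + b) * q' := by
  have e1 : F₁ a p' q' + (1 + a + b) * p' - (F₁ a p q + (1 + a + b) * p) =
      (2 + b - (p + p') + a * q') * (p' - p) + a * p * (q' - q) := by
    unfold F₁; ring
  have e2 : F₂ b p' q' + (1 + a + b) * q' - (F₂ b p q + (1 + a + b) * q) =
      b * (1 - q') * (p' - p) + (a + b - b * p + q + q') * (q' - q) := by
    unfold F₂; ring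
  have n1 : 0 ≤ (2 + b - (p + p') + a * q') * (p' - p) + a * p * (q' - q) := by
    have i1 : 0 ≤ 2 + b - (p + p') + a * q' := by
      nlinarith [hp.2, hp'.2, mul_nonneg ha.le hq'.1]
    have i2 : 0 ≤ a * p := mul_nonneg ha.le hp.1
    exact add_nonneg (mul_nonneg i1 (by linarith)) (mul_nonneg i2 (by linarith))
  have n2 : 0 ≤ b * (1 - q') * (p' - p) + (a + b - b * p + q + q') * (q' - q) := by
    have i1 : 0 ≤ b * (1 - q') := mul_nonneg hb.le (by linarith [hq'.2])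
    have i2 : 0 ≤ a + b - b * p + q + q' := by
      nlinarith [mul_nonneg hb.le (by linarith [hp.2] : 0 ≤ 1 - p), hq.1, hq'.1]
    exact add_nonneg (mul_nonneg i1 (by linarith)) (mul_nonneg i2 (by linarith))
  constructor <;> linarith

/-- invariants of the iterates -/
private def P6_Good (z : ℝ → ℝ → ℝ) : Prop :=
  Measurable (fun w : ℝ × ℝ => z w.1 w.2) ∧ ∀ t x, z t x ∈ Icc (0 : ℝ) 1

private theorem P6_MB {a b : ℝ} (ha : 0 < a) (hb : 0 < b) {p₀ : ℝ → ℝ} {z y : ℝ → ℝ → ℝ}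
    (mp : Measurable p₀) (bp : ∀ x, p₀ x ∈ Icc (0 : ℝ) 1) (hz : P6_Good z) (hy : P6_Good y) :
    MB (1 + a + b) p₀ (fun s x => F₁ a (z s x) (y s x) + (1 + a + b) * z s x) ∧
    MB (1 + a + b) p₀ (fun s x => F₂ b (z s x) (y s x) + (1 + a + b) * y s x) := by
  have h0 : ∀ x, |p₀ x| ≤ 1 + a + b := fun x => by
    rw [abs_of_nonneg (bp x).1]; linarith [(bp x).2]
  have m1 : Measurable (fun w : ℝ × ℝ => F₁ a (z w.1 w.2) (y w.1 w.2) +
      (1 + a + b) * z w.1 w.2) := by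
    have h1 := hz.1
    have h2 := hy.1
    unfold F₁
    exact ((h1.mul ((measurable_const.sub h1).add (h2.const_mul a))).add
      (h1.const_mul (1 + a + b)))
  have m2 : Measurable (fun w : ℝ × ℝ => F₂ b (z w.1 w.2) (y w.1 w.2) +
      (1 + a + b) * y w.1 w.2) := by
    have h1 := hz.1
    have h2 := hy.1
    unfold F₂
    exact (((measurable_const.sub h2).mul ((h1.const_mul b).sub h2)).add
      (h2.const_mul (1 + a + b)))
  refine ⟨⟨mp, m1, h0, fun t x => ?_⟩, ⟨mp, m2, h0, fun t x => ?_⟩⟩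
  · obtain ⟨h1, h2⟩ := P6_F₁ ha hb (hz.2 t x) (hy.2 t x)
    rw [abs_of_nonneg h1]; exact h2
  · obtain ⟨h1, h2⟩ := P6_F₂ ha hb (hz.2 t x) (hy.2 t x)
    rw [abs_of_nonneg h1]; exact h2

private theorem P6_cut_good {L K C : ℝ} (hL : 0 < L) (hK : 0 < K) {h₀ : ℝ → ℝ}
    {H : ℝ → ℝ → ℝ} (hMB : MB C h₀ H) (b0 : ∀ x, h₀ x ∈ Icc (0 : ℝ) 1)
    (bH : ∀ t x, 0 ≤ H t x ∧ H t x ≤ K) : P6_Good (P6_cut L (mild L K h₀ H)) := by
  constructor
  · have hc := mild_continuousOn hL hK.le hMB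
    have hs : MeasurableSet (Ioi (0 : ℝ) ×ˢ (univ : Set ℝ)) := measurableSet_Ioi.prod MeasurableSet.univ
    have hm : Measurable (indicator (Ioi (0 : ℝ) ×ˢ (univ : Set ℝ))
        fun w : ℝ × ℝ => mild L K h₀ H w.1 w.2) := by
      have := hc.measurable_piecewise (g := (0 : ℝ × ℝ → ℝ)) continuousOn_const hs
      rwa [piecewise_eq_indicator] at this
    have hm2 := hm.indicator ((measurableSet_Ioi (a := (0 : ℝ))).prod
      (measurableSet_Icc (a := (0 : ℝ)) (b := L)))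
    convert hm2 using 1
    ext w
    unfold P6_cut
    by_cases h : 0 < w.1 ∧ w.2 ∈ Icc 0 L
    · rw [if_pos h, indicator_of_mem (show w ∈ Ioi (0 : ℝ) ×ˢ Icc 0 L from h),
        indicator_of_mem (show w ∈ Ioi (0 : ℝ) ×ˢ (univ : Set ℝ) from ⟨h.1, trivial⟩)]
    · rw [if_neg h, indicator_of_notMem (show w ∉ Ioi (0 : ℝ) ×ˢ Icc 0 L from h)]
  · intro t x
    unfold P6_cut
    by_cases h : 0 < t ∧ x ∈ Icc 0 L
    · rw [if_pos h]
      exact ⟨mild_nonneg hL hK.le hMB (fun x _ => (b0 x).1) (fun t _ x _ => (bH t x).1) h.1 x h.2,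
        mild_le_one hL hK hMB (fun x _ => (b0 x).2) (fun t _ x _ => (bH t x).2) h.1 x h.2⟩
    · rw [if_neg h]; exact ⟨le_refl _, zero_le_one⟩

private theorem P6_it_good {a b L : ℝ} (ha : 0 < a) (hb : 0 < b) (hL : 0 < L) {p₀ q₀ : ℝ → ℝ}
    (mp : Measurable p₀) (mq : Measurable q₀) (bp : ∀ x, p₀ x ∈ Icc (0 : ℝ) 1)
    (bq : ∀ x, q₀ x ∈ Icc (0 : ℝ) 1) (n : ℕ) :
    P6_Good (P6_it a b L p₀ q₀ n).1 ∧ P6_Good (P6_it a b L p₀ q₀ n).2 := by
  have hK : 0 < 1 + a + b := by linarith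
  induction n with
  | zero => exact ⟨⟨measurable_const, fun _ _ => ⟨zero_le_one, le_refl _⟩⟩,
      ⟨measurable_const, fun _ _ => ⟨zero_le_one, le_refl _⟩⟩⟩
  | succ n ih =>
    exact ⟨P6_cut_good hL hK (P6_MB ha hb mp bp ih.1 ih.2).1 bp
        (fun t x => P6_F₁ ha hb (ih.1.2 t x) (ih.2.2 t x)),
      P6_cut_good hL hK (P6_MB ha hb mq bq ih.1 ih.2).2 bq
        (fun t x => P6_F₂ ha hb (ih.1.2 t x) (ih.2.2 t x))⟩

private theorem P6_cut_mono {L K C : ℝ} (hL : 0 < L) (hK : 0 ≤ K) {h₀ : ℝ → ℝ}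
    {H H' : ℝ → ℝ → ℝ} (hMB : MB C h₀ H) (hMB' : MB C h₀ H') (h : ∀ t x, H t x ≤ H' t x)
    (t x : ℝ) : P6_cut L (mild L K h₀ H) t x ≤ P6_cut L (mild L K h₀ H') t x := by
  unfold P6_cut
  by_cases hh : 0 < t ∧ x ∈ Icc 0 L
  · rw [if_pos hh, if_pos hh]
    have e := mild_add hL hK hMB' hMB 1 (-1) hh.1 x
    have hMB2 : MB (2 * C) (fun x => 1 * h₀ x + -1 * h₀ x)
        (fun s x => 1 * H' s x + -1 * H s x) := by
      have hC : 0 ≤ C := (abs_nonneg _).trans (hMB.2.2.1 0)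
      refine ⟨(hMB.1.const_mul 1).add (hMB.1.const_mul (-1)),
        (hMB'.2.1.const_mul 1).add (hMB.2.1.const_mul (-1)), fun x => ?_, fun t x => ?_⟩
      · have : 1 * h₀ x + -1 * h₀ x = 0 := by ring
        show |1 * h₀ x + -1 * h₀ x| ≤ 2 * C
        rw [this, abs_zero]; linarith
      · have h1 := hMB.2.2.2 t x
        have h2 := hMB'.2.2.2 t x
        show |1 * H' t x + -1 * H t x| ≤ 2 * C
        rw [abs_le] at h1 h2 ⊢
        constructor <;> linarith [h1.1, h1.2, h2.1, h2.2]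
    have hn := mild_nonneg hL hK hMB2 (fun x _ => by simp) (fun t _ x _ => by
      have := h t x
      show 0 ≤ 1 * H' t x + -1 * H t x
      linarith) hh.1 x hh.2
    rw [e] at hn
    linarith
  · rw [if_neg hh, if_neg hh]

private theorem P6_it_anti {a b L : ℝ} (ha : 0 < a) (hb : 0 < b) (hL : 0 < L) {p₀ q₀ : ℝ → ℝ}
    (mp : Measurable p₀) (mq : Measurable q₀) (bp : ∀ x, p₀ x ∈ Icc (0 : ℝ) 1)
    (bq : ∀ x, q₀ x ∈ Icc (0 : ℝ) 1) (n : ℕ) (t x : ℝ) :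
    (P6_it a b L p₀ q₀ (n + 1)).1 t x ≤ (P6_it a b L p₀ q₀ n).1 t x ∧
    (P6_it a b L p₀ q₀ (n + 1)).2 t x ≤ (P6_it a b L p₀ q₀ n).2 t x := by
  have hK : 0 < 1 + a + b := by linarith
  have hg := P6_it_good ha hb hL mp mq bp bq
  induction n generalizing t x with
  | zero => exact ⟨((hg 1).1.2 t x).2, ((hg 1).2.2 t x).2⟩
  | succ n ih =>
    have hm : ∀ s y, _ := fun s y => P6_mono (a := a) (b := b) ha hb ((hg (n + 1)).1.2 s y)
      ((hg (n + 1)).2.2 s y) ((hg n).1.2 s y) ((hg n).2.2 s y) (ih s y).1 (ih s y).2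
    exact ⟨P6_cut_mono hL hK.le (P6_MB ha hb mp bp (hg (n + 1)).1 (hg (n + 1)).2).1
        (P6_MB ha hb mp bp (hg n).1 (hg n).2).1 (fun s y => (hm s y).1) t x,
      P6_cut_mono hL hK.le (P6_MB ha hb mq bq (hg (n + 1)).1 (hg (n + 1)).2).2
        (P6_MB ha hb mq bq (hg n).1 (hg n).2).2 (fun s y => (hm s y).2) t x⟩

theorem exists_coop {a b L : ℝ} (ha : 0 < a) (hb : 0 < b) (hL : 0 < L) {p₀ q₀ : ℝ → ℝ}
    (mp : Measurable p₀) (mq : Measurable q₀) (bp : ∀ x, p₀ x ∈ Icc (0 : ℝ) 1)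
    (bq : ∀ x, q₀ x ∈ Icc (0 : ℝ) 1) : ∃ p q : ℝ → ℝ → ℝ, Coop a b L p₀ q₀ p q := by
  have hK : 0 < 1 + a + b := by linarith
  set K := 1 + a + b with hKdef
  have hg := P6_it_good ha hb hL mp mq bp bq
  have han := P6_it_anti ha hb hL mp mq bp bq
  set Z : ℕ → ℝ → ℝ → ℝ := fun n => (P6_it a b L p₀ q₀ n).1 with hZ
  set Y : ℕ → ℝ → ℝ → ℝ := fun n => (P6_it a b L p₀ q₀ n).2 with hY
  have hconv : ∀ (W : ℕ → ℝ → ℝ → ℝ), (∀ n, P6_Good (W n)) →
      (∀ n t x, W (n + 1) t x ≤ W n t x) →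
      ∃ w : ℝ → ℝ → ℝ, P6_Good w ∧ ∀ t x, Tendsto (fun n => W n t x) atTop (𝓝 (w t x)) := by
    intro W hW hWa
    have hlim : ∀ t x, Tendsto (fun n => W n t x) atTop (𝓝 (⨅ n, W n t x)) := fun t x =>
      tendsto_atTop_ciInf (antitone_nat_of_succ_le fun n => hWa n t x)
        ⟨0, by rintro _ ⟨n, rfl⟩; exact ((hW n).2 t x).1⟩
    refine ⟨fun t x => ⨅ n, W n t x, ⟨?_, fun t x => ?_⟩, hlim⟩
    · refine measurable_of_tendsto_metrizable (fun n => (hW n).1) ?_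
      rw [tendsto_pi_nhds]
      intro w
      exact hlim w.1 w.2
    · exact isClosed_Icc.mem_of_tendsto (hlim t x) (Eventually.of_forall fun n => (hW n).2 t x)
  obtain ⟨z, hz, hzl⟩ := hconv Z (fun n => (hg n).1) (fun n t x => (han n t x).1)
  obtain ⟨y, hy, hyl⟩ := hconv Y (fun n => (hg n).2) (fun n t x => (han n t x).2)
  set Hp : ℝ → ℝ → ℝ := fun s x => F₁ a (z s x) (y s x) + K * z s x with hHp
  set Hq : ℝ → ℝ → ℝ := fun s x => F₂ b (z s x) (y s x) + K * y s x with hHq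
  have MBp : MB K p₀ Hp := (P6_MB ha hb mp bp hz hy).1
  have MBq : MB K q₀ Hq := (P6_MB ha hb mq bq hz hy).2
  have hlp : ∀ t x, Tendsto (fun n => F₁ a (Z n t x) (Y n t x) + K * Z n t x) atTop
      (𝓝 (Hp t x)) := by
    intro t x
    have h1 := hzl t x
    have h2 := hyl t x
    rw [hHp]
    unfold F₁
    exact (h1.mul ((tendsto_const_nhds.sub h1).add (h2.const_mul a))).add (h1.const_mul K)
  have hlq : ∀ t x, Tendsto (fun n => F₂ b (Z n t x) (Y n t x) + K * Y n t x) atTop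
      (𝓝 (Hq t x)) := by
    intro t x
    have h1 := hzl t x
    have h2 := hyl t x
    rw [hHq]
    unfold F₂
    exact ((tendsto_const_nhds.sub h2).mul ((h1.const_mul b).sub h2)).add (h2.const_mul K)
  -- fixed point equations
  have fp : ∀ t, 0 < t → ∀ x ∈ Icc 0 L, z t x = mild L K p₀ Hp t x := by
    intro t ht x hx
    have h1 := mild_tendsto hL hK.le (fun n => (P6_MB ha hb mp bp (hg n).1 (hg n).2).1) MBp
      (fun t _ x _ => hlp t x) ht x
    have h2 : Tendsto (fun n => Z (n + 1) t x) atTop (𝓝 (z t x)) :=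
      (hzl t x).comp (tendsto_add_atTop_nat 1)
    refine tendsto_nhds_unique h2 (h1.congr fun n => ?_)
    show _ = P6_cut L _ t x
    unfold P6_cut
    rw [if_pos ⟨ht, hx⟩]
  have fq : ∀ t, 0 < t → ∀ x ∈ Icc 0 L, y t x = mild L K q₀ Hq t x := by
    intro t ht x hx
    have h1 := mild_tendsto hL hK.le (fun n => (P6_MB ha hb mq bq (hg n).1 (hg n).2).2) MBq
      (fun t _ x _ => hlq t x) ht x
    have h2 : Tendsto (fun n => Y (n + 1) t x) atTop (𝓝 (y t x)) :=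
      (hyl t x).comp (tendsto_add_atTop_nat 1)
    refine tendsto_nhds_unique h2 (h1.congr fun n => ?_)
    show _ = P6_cut L _ t x
    unfold P6_cut
    rw [if_pos ⟨ht, hx⟩]
  refine ⟨mild L K p₀ Hp, mild L K q₀ Hq, ?_, ?_, ?_, ?_, ?_, ?_⟩
  · exact (mild_continuousOn hL hK.le MBp).mono (prod_mono_right (subset_univ _))
  · exact (mild_continuousOn hL hK.le MBq).mono (prod_mono_right (subset_univ _))
  · intro t ht x hx
    rw [← fp t ht x hx, ← fq t ht x hx]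
    exact ⟨hz.2 t x, hy.2 t x⟩
  · intro t ht
    exact ⟨(mild_boundary hL p₀ Hp t).1, (mild_boundary hL p₀ Hp t).2,
      (mild_boundary hL q₀ Hq t).1, (mild_boundary hL q₀ Hq t).2⟩
  · intro φ hφ h0 h1 t ht
    rw [mild_weak hL hK.le MBp φ hφ h0 h1 t ht]
    congr 1
    apply intervalIntegral.integral_congr_ae
    refine Eventually.of_forall fun s hs => ?_
    rw [uIoc_of_le ht.le] at hs
    congr 2
    apply intervalIntegral.integral_congr_ae
    refine Eventually.of_forall fun x hx => ?_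
    rw [uIoc_of_le hL.le] at hx
    have hx' : x ∈ Icc 0 L := Ioc_subset_Icc_self hx
    simp only
    rw [← fp s hs.1 x hx', ← fq s hs.1 x hx', hHp]
    ring
  · intro φ hφ h0 h1 t ht
    rw [mild_weak hL hK.le MBq φ hφ h0 h1 t ht]
    congr 1
    apply intervalIntegral.integral_congr_ae
    refine Eventually.of_forall fun s hs => ?_
    rw [uIoc_of_le ht.le] at hs
    congr 2
    apply intervalIntegral.integral_congr_ae
    refine Eventually.of_forall fun x hx => ?_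
    rw [uIoc_of_le hL.le] at hx
    have hx' : x ∈ Icc 0 L := Ioc_subset_Icc_self hx
    simp only
    rw [← fp s hs.1 x hx', ← fq s hs.1 x hx', hHq]
    ring

end Pool.Agent.H62.LV
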