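import Pool.Agent.H62.LV.Base

/-!
Part P7a of the Lotka-Volterra control problem: weak stationary solutions are classical.
-/

namespace Pool.Agent.H62.LV

open MeasureTheory Set Filter Topology

/-- solution of `-u'' = f`, `u 0 = u L = 0` -/
private noncomputable def P7a_u (L : ℝ) (f : ℝ → ℝ) (x : ℝ) : ℝ :=
  -(∫ s in (0 : ℝ)..x, ∫ r in (0 : ℝ)..s, f r) + x / L * ∫ s in (0 : ℝ)..L, ∫ r in (0 : ℝ)..s, f r

/-- its derivative -/
private noncomputable def P7a_u' (L : ℝ) (f : ℝ → ℝ) (x : ℝ) : ℝ :=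
  -(∫ r in (0 : ℝ)..x, f r) + 1 / L * ∫ s in (0 : ℝ)..L, ∫ r in (0 : ℝ)..s, f r

private theorem P7a_zero (L : ℝ) (f : ℝ → ℝ) : P7a_u L f 0 = 0 := by
  simp [P7a_u]

private theorem P7a_L {L : ℝ} (hL : 0 < L) (f : ℝ → ℝ) : P7a_u L f L = 0 := by
  simp [P7a_u, div_self hL.ne']

private theorem P7a_deriv {L : ℝ} {f : ℝ → ℝ}
    (hf : ∀ x y, IntervalIntegrable f volume x y) (x : ℝ) :
    HasDerivAt (P7a_u L f) (P7a_u' L f x) x := by
  have hc : Continuous fun s => ∫ r in (0 : ℝ)..s, f r :=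
    intervalIntegral.continuous_primitive hf 0
  have h1 : HasDerivAt (fun x => ∫ s in (0 : ℝ)..x, ∫ r in (0 : ℝ)..s, f r)
      (∫ r in (0 : ℝ)..x, f r) x :=
    intervalIntegral.integral_hasDerivAt_right (hc.intervalIntegrable 0 x)
      hc.stronglyMeasurable.stronglyMeasurableAtFilter hc.continuousAt
  have h2 : HasDerivAt (fun x : ℝ => x / L * ∫ s in (0 : ℝ)..L, ∫ r in (0 : ℝ)..s, f r)
      (1 / L * ∫ s in (0 : ℝ)..L, ∫ r in (0 : ℝ)..s, f r) x :=
    ((hasDerivAt_id x).div_const L).mul_const _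
  exact h1.neg.add h2

private theorem P7a_deriv2 {L : ℝ} {f : ℝ → ℝ} (hf : Continuous f) (x : ℝ) :
    HasDerivAt (P7a_u' L f) (-f x) x := by
  have h1 : HasDerivAt (fun x => ∫ r in (0 : ℝ)..x, f r) (f x) x :=
    intervalIntegral.integral_hasDerivAt_right (hf.intervalIntegrable 0 x)
      hf.stronglyMeasurable.stronglyMeasurableAtFilter hf.continuousAt
  exact h1.neg.add_const _

private theorem P7a_contDiff {L : ℝ} {f : ℝ → ℝ} (hf : Continuous f) :
    ContDiff ℝ 2 (P7a_u L f) ∧ deriv (deriv (P7a_u L f)) = fun x => -f x := by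
  have h1 : deriv (P7a_u L f) = P7a_u' L f := by
    ext x
    exact (P7a_deriv (fun x y => hf.intervalIntegrable x y) x).deriv
  have h2 : deriv (P7a_u' L f) = fun x => -f x := by
    ext x
    exact (P7a_deriv2 hf x).deriv
  have hd1 : Differentiable ℝ (P7a_u L f) := fun x =>
    (P7a_deriv (fun x y => hf.intervalIntegrable x y) x).differentiableAt
  have hd2 : Differentiable ℝ (P7a_u' L f) := fun x => (P7a_deriv2 hf x).differentiableAt
  refine ⟨?_, by rw [h1, h2]⟩
  have : ContDiff ℝ (1 + 1) (P7a_u L f) := by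
    rw [contDiff_succ_iff_deriv]
    refine ⟨hd1, by simp, ?_⟩
    rw [h1, contDiff_one_iff_deriv]
    refine ⟨hd2, ?_⟩
    rw [h2]
    exact hf.neg
  exact this

private theorem P7a_test {L : ℝ} (hL : 0 < L) {f : ℝ → ℝ}
    (hf : ∀ x y, IntervalIntegrable f volume x y) {φ : ℝ → ℝ} (hφ : ContDiff ℝ 2 φ)
    (h0 : φ 0 = 0) (h1 : φ L = 0) :
    ∫ x in (0 : ℝ)..L, (P7a_u L f x * deriv (deriv φ) x + f x * φ x) = 0 := by
  have hφ1 : ContDiff ℝ 1 (deriv φ) := by
    have : ContDiff ℝ (1 + 1) φ := hφ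
    exact (contDiff_succ_iff_deriv.mp this).2.2
  have hφd : ∀ x, HasDerivAt φ (deriv φ x) x := fun x =>
    ((hφ.differentiable (by norm_num)) x).hasDerivAt
  have hφdd : ∀ x, HasDerivAt (deriv φ) (deriv (deriv φ) x) x := fun x =>
    ((hφ1.differentiable (by norm_num)) x).hasDerivAt
  have hφ2c : Continuous (deriv (deriv φ)) := (contDiff_one_iff_deriv.mp hφ1).2
  have hφc : Continuous φ := hφ.continuous
  have hφ1c : Continuous (deriv φ) := hφ1.continuous
  have hgc : Continuous fun s => ∫ r in (0 : ℝ)..s, f r :=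
    intervalIntegral.continuous_primitive hf 0
  have hu : ∀ x, HasDerivAt (P7a_u L f) (P7a_u' L f x) x := P7a_deriv hf
  have huc : Continuous (P7a_u L f) :=
    continuous_iff_continuousAt.mpr fun x => (hu x).continuousAt
  have hu'c : Continuous (P7a_u' L f) := by
    unfold P7a_u'
    exact hgc.neg.add continuous_const
  -- first integration by parts
  have e1 : ∫ x in (0 : ℝ)..L, P7a_u L f x * deriv (deriv φ) x =
      -∫ x in (0 : ℝ)..L, P7a_u' L f x * deriv φ x := by
    rw [intervalIntegral.integral_mul_deriv_eq_deriv_mul (fun x _ => hu x)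
      (fun x _ => hφdd x) (hu'c.intervalIntegrable _ _) (hφ2c.intervalIntegrable _ _),
      P7a_zero, P7a_L hL]
    ring
  -- second integration by parts
  have e2 : ∫ x in (0 : ℝ)..L, f x * φ x =
      -∫ x in (0 : ℝ)..L, (∫ r in (0 : ℝ)..x, f r) * deriv φ x := by
    have hg : AbsolutelyContinuousOnInterval (fun s => ∫ r in (0 : ℝ)..s, f r) 0 L :=
      (hf 0 L).absolutelyContinuousOnInterval_intervalIntegral (c := 0) (by simp)
    have hφac : AbsolutelyContinuousOnInterval φ 0 L :=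
      ((hφ.of_le (by norm_num)).contDiffOn).absolutelyContinuousOnInterval
    have key := AbsolutelyContinuousOnInterval.integral_deriv_mul_eq_sub hg hφac
    rw [h0, h1] at key
    have hae : ∀ᵐ x, x ∈ uIcc 0 L → HasDerivAt (fun t => ∫ s in (0 : ℝ)..t, f s) (f x) x := by
      filter_upwards [(hf 0 L).ae_hasDerivAt_integral] with x hx hxm
      exact hx hxm 0 (by simp)
    have hc : ∫ x in (0 : ℝ)..L, deriv (fun s => ∫ r in (0 : ℝ)..s, f r) x * φ x +
        (∫ r in (0 : ℝ)..x, f r) * deriv φ x =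
        ∫ x in (0 : ℝ)..L, (f x * φ x + (∫ r in (0 : ℝ)..x, f r) * deriv φ x) := by
      apply intervalIntegral.integral_congr_ae
      filter_upwards [hae] with x hx hxm
      rw [(hx (uIoc_subset_uIcc hxm)).deriv]
    have j1 : IntervalIntegrable (fun x => f x * φ x) volume 0 L :=
      (hf 0 L).mul_continuousOn hφc.continuousOn
    have j2 : IntervalIntegrable (fun x => (∫ r in (0 : ℝ)..x, f r) * deriv φ x) volume 0 L :=
      (hgc.mul hφ1c).intervalIntegrable _ _
    rw [hc, intervalIntegral.integral_add j1 j2] at key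
    linarith
  -- `∫ φ' = 0`
  have e3 : ∫ x in (0 : ℝ)..L, deriv φ x = 0 := by
    rw [intervalIntegral.integral_deriv_eq_sub (fun x _ => (hφd x).differentiableAt)
      (hφ1c.intervalIntegrable _ _), h0, h1, sub_zero]
  have j1 : IntervalIntegrable (fun x => f x * φ x) volume 0 L :=
    (hf 0 L).mul_continuousOn hφc.continuousOn
  have j3 : IntervalIntegrable (fun x => P7a_u L f x * deriv (deriv φ) x) volume 0 L :=
    (huc.mul hφ2c).intervalIntegrable _ _
  rw [intervalIntegral.integral_add j3 j1, e1, e2]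
  have e4 : ∫ x in (0 : ℝ)..L, P7a_u' L f x * deriv φ x =
      -(∫ x in (0 : ℝ)..L, (∫ r in (0 : ℝ)..x, f r) * deriv φ x) +
      (1 / L * ∫ s in (0 : ℝ)..L, ∫ r in (0 : ℝ)..s, f r) * ∫ x in (0 : ℝ)..L, deriv φ x := by
    have j4 : IntervalIntegrable (fun x => -((∫ r in (0 : ℝ)..x, f r) * deriv φ x)) volume 0 L :=
      (hgc.mul hφ1c).neg.intervalIntegrable _ _
    have j5 : IntervalIntegrable (fun x => (1 / L * ∫ s in (0 : ℝ)..L, ∫ r in (0 : ℝ)..s, f r) *
        deriv φ x) volume 0 L := (continuous_const.mul hφ1c).intervalIntegrable _ _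
    rw [← intervalIntegral.integral_neg, ← intervalIntegral.integral_const_mul,
      ← intervalIntegral.integral_add j4 j5]
    congr 1
    ext x
    unfold P7a_u'
    ring
  rw [e4, e3]
  ring

private theorem P7a_ae {L : ℝ} (hL : 0 < L) {P f : ℝ → ℝ} (mP : Measurable P)
    (bP : ∀ x, P x ∈ Icc (0 : ℝ) 1) (hf : ∀ x y, IntervalIntegrable f volume x y)
    (w : ∀ φ : ℝ → ℝ, ContDiff ℝ 2 φ → φ 0 = 0 → φ L = 0 →
      ∫ x in (0 : ℝ)..L, (P x * deriv (deriv φ) x + f x * φ x) = 0) :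
    ∀ᵐ x, x ∈ Ioo 0 L → P x = P7a_u L f x := by
  have huc : Continuous (P7a_u L f) :=
    continuous_iff_continuousAt.mpr fun x => (P7a_deriv hf x).continuousAt
  have hPi : ∀ x y, IntervalIntegrable P volume x y := by
    intro x y
    have h2 : IntervalIntegrable (fun _ : ℝ => (1 : ℝ)) volume x y := intervalIntegrable_const
    refine h2.mono_fun mP.aestronglyMeasurable (Eventually.of_forall fun s => ?_)
    show ‖P s‖ ≤ ‖(1 : ℝ)‖
    rw [Real.norm_eq_abs, norm_one, abs_of_nonneg (bP s).1]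
    exact (bP s).2
  have hloc : LocallyIntegrable (fun x => P x - P7a_u L f x) volume := by
    have h1 : LocallyIntegrable P volume := by
      have : LocallyIntegrable (fun _ : ℝ => (1 : ℝ)) volume := locallyIntegrable_const 1
      refine this.mono mP.aestronglyMeasurable (Eventually.of_forall fun s => ?_)
      rw [Real.norm_eq_abs, norm_one, abs_of_nonneg (bP s).1]
      exact (bP s).2
    exact h1.sub huc.locallyIntegrable
  have key := isOpen_Ioo.ae_eq_zero_of_integral_contDiff_smul_eq_zero (U := Ioo 0 L)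
    (f := fun x => P x - P7a_u L f x) (μ := volume) (hloc.locallyIntegrableOn _) ?_
  · filter_upwards [key] with x hx hxm
    linarith [hx hxm]
  · intro g hg _ hsupp
    have hgc : Continuous g := hg.continuous
    obtain ⟨hφ, hφ2⟩ := P7a_contDiff (L := L) (f := fun x => -g x) hgc.neg
    have w1 := w _ hφ (P7a_zero L _) (P7a_L hL _)
    have w2 := P7a_test hL hf hφ (P7a_zero L _) (P7a_L hL _)
    rw [hφ2] at w1 w2
    simp only [neg_neg] at w1 w2
    have hgi : ∫ x, g x • (P x - P7a_u L f x) =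
        ∫ x in (0 : ℝ)..L, g x • (P x - P7a_u L f x) := by
      rw [intervalIntegral.integral_of_le hL.le]
      refine (setIntegral_eq_integral_of_forall_compl_eq_zero ?_).symm
      intro x hx
      have : x ∉ tsupport g := fun h => hx (Ioo_subset_Ioc_self (hsupp h))
      rw [image_eq_zero_of_notMem_tsupport this, zero_smul]
    rw [hgi]
    have hφc : Continuous (P7a_u L fun x => -g x) := hφ.continuous
    have i1 : IntervalIntegrable (fun x => P x * g x +
        f x * P7a_u L (fun x => -g x) x) volume 0 L :=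
      ((hPi 0 L).mul_continuousOn hgc.continuousOn).add
        ((hf 0 L).mul_continuousOn hφc.continuousOn)
    have i2 : IntervalIntegrable (fun x => P7a_u L f x * g x +
        f x * P7a_u L (fun x => -g x) x) volume 0 L :=
      ((huc.mul hgc).intervalIntegrable _ _).add
        ((hf 0 L).mul_continuousOn hφc.continuousOn)
    have := intervalIntegral.integral_sub i1 i2
    rw [w1, w2, sub_zero] at this
    rw [← this]
    congr 1
    ext x
    simp only [smul_eq_mul]
    ring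

theorem stat_of_weak {a b L : ℝ} (ha : 0 < a) (hb : 0 < b) (hL : 0 < L) {P Q : ℝ → ℝ}
    (mP : Measurable P) (mQ : Measurable Q) (bP : ∀ x, P x ∈ Icc (0 : ℝ) 1)
    (bQ : ∀ x, Q x ∈ Icc (0 : ℝ) 1)
    (wP : ∀ φ : ℝ → ℝ, ContDiff ℝ 2 φ → φ 0 = 0 → φ L = 0 →
      ∫ x in (0 : ℝ)..L, (P x * deriv (deriv φ) x + F₁ a (P x) (Q x) * φ x) = 0)
    (wQ : ∀ φ : ℝ → ℝ, ContDiff ℝ 2 φ → φ 0 = 0 → φ L = 0 →
      ∫ x in (0 : ℝ)..L, (Q x * deriv (deriv φ) x + F₂ b (P x) (Q x) * φ x) = 0) :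
    ∃ p q : ℝ → ℝ, Stat a b L p q ∧ p 0 = 0 ∧ q 0 = 0 ∧ p L = 0 ∧ q L = 0 ∧
      (∀ᵐ x ∂(volume.restrict (Ioo 0 L)), P x = p x) ∧
      (∀ᵐ x ∂(volume.restrict (Ioo 0 L)), Q x = q x) := by
  -- integrability of bounded measurable functions
  have hbi : ∀ (C : ℝ) (f : ℝ → ℝ), Measurable f → (∀ x, |f x| ≤ C) →
      ∀ x y, IntervalIntegrable f volume x y := by
    intro C f hm hC x y
    have h2 : IntervalIntegrable (fun _ : ℝ => C) volume x y := intervalIntegrable_const
    refine h2.mono_fun hm.aestronglyMeasurable (Eventually.of_forall fun s => ?_)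
    show ‖f s‖ ≤ ‖C‖
    rw [Real.norm_eq_abs, Real.norm_eq_abs]
    exact (hC s).trans (le_abs_self C)
  set f : ℝ → ℝ := fun x => F₁ a (P x) (Q x) with hf
  set g : ℝ → ℝ := fun x => F₂ b (P x) (Q x) with hg
  have mf : Measurable f := by
    rw [hf]; unfold F₁; fun_prop
  have mg : Measurable g := by
    rw [hg]; unfold F₂; fun_prop
  have bf : ∀ x, |f x| ≤ 2 + 2 * a := by
    intro x
    obtain ⟨h1, h2⟩ := bP x
    obtain ⟨h3, h4⟩ := bQ x
    rw [hf]
    simp only [F₁]
    rw [abs_mul, abs_of_nonneg h1]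
    have h5 : |1 - a - P x + a * Q x| ≤ 2 + 2 * a := by
      rw [abs_le]
      constructor <;> nlinarith [mul_nonneg ha.le h3, mul_le_mul_of_nonneg_left h4 ha.le]
    calc P x * |1 - a - P x + a * Q x| ≤ 1 * |1 - a - P x + a * Q x| :=
          mul_le_mul_of_nonneg_right h2 (abs_nonneg _)
      _ ≤ 2 + 2 * a := by rw [one_mul]; exact h5
  have bg : ∀ x, |g x| ≤ 1 + b := by
    intro x
    obtain ⟨h1, h2⟩ := bP x
    obtain ⟨h3, h4⟩ := bQ x
    rw [hg]
    simp only [F₂]
    rw [abs_mul, abs_of_nonneg (by linarith : 0 ≤ 1 - Q x)]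
    have h5 : |b * P x - Q x| ≤ 1 + b := by
      rw [abs_le]
      constructor <;> nlinarith [mul_nonneg hb.le h1, mul_le_mul_of_nonneg_left h2 hb.le]
    calc (1 - Q x) * |b * P x - Q x| ≤ 1 * |b * P x - Q x| :=
          mul_le_mul_of_nonneg_right (by linarith) (abs_nonneg _)
      _ ≤ 1 + b := by rw [one_mul]; exact h5
  have hfi := hbi _ f mf bf
  have hgi := hbi _ g mg bg
  have aeP := P7a_ae hL mP bP hfi wP
  have aeQ := P7a_ae hL mQ bQ hgi wQ
  set u := P7a_u L f with hu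
  set v := P7a_u L g with hv
  have huc : Continuous u :=
    continuous_iff_continuousAt.mpr fun x => (P7a_deriv hfi x).continuousAt
  have hvc : Continuous v :=
    continuous_iff_continuousAt.mpr fun x => (P7a_deriv hgi x).continuousAt
  -- bounds for the continuous representatives
  have hbound : ∀ (w W : ℝ → ℝ), Continuous w → (∀ x, W x ∈ Icc (0 : ℝ) 1) →
      (∀ᵐ x, x ∈ Ioo 0 L → W x = w x) → ∀ x ∈ Icc 0 L, w x ∈ Icc (0 : ℝ) 1 := by
    intro w W hw hW hae
    have hcl : IsClosed {x | w x ∈ Icc (0 : ℝ) 1} := isClosed_Icc.preimage hw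
    have hsub : Ioo 0 L ⊆ {x | w x ∈ Icc (0 : ℝ) 1} := by
      intro x hx
      by_contra hcon
      have hopen : IsOpen ({x | w x ∈ Icc (0 : ℝ) 1}ᶜ ∩ Ioo 0 L) :=
        hcl.isOpen_compl.inter isOpen_Ioo
      have hpos : 0 < volume ({x | w x ∈ Icc (0 : ℝ) 1}ᶜ ∩ Ioo 0 L) :=
        hopen.measure_pos volume ⟨x, hcon, hx⟩
      have hz : volume ({x | w x ∈ Icc (0 : ℝ) 1}ᶜ ∩ Ioo 0 L) = 0 := by
        refine measure_mono_null ?_ (ae_iff.mp hae)
        rintro y ⟨hy1, hy2⟩ hy3
        apply hy1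
        show w y ∈ Icc (0 : ℝ) 1
        rw [← hy3 hy2]
        exact hW y
      exact absurd hz hpos.ne'
    intro x hx
    have : closure (Ioo 0 L) ⊆ {x | w x ∈ Icc (0 : ℝ) 1} := hcl.closure_subset_iff.mpr hsub
    rw [closure_Ioo hL.ne] at this
    exact this hx
  have bu := hbound u P huc bP aeP
  have bv := hbound v Q hvc bQ aeQ
  -- continuous sources
  set cl : ℝ → ℝ := fun x => max 0 (min x L) with hcl
  have hclc : Continuous cl := by rw [hcl]; fun_prop
  have hclm : ∀ x ∈ Icc 0 L, cl x = x := by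
    intro x hx
    rw [hcl]
    simp [min_eq_left hx.2, max_eq_right hx.1]
  set f' : ℝ → ℝ := fun x => F₁ a (u (cl x)) (v (cl x)) with hf'
  set g' : ℝ → ℝ := fun x => F₂ b (u (cl x)) (v (cl x)) with hg'
  have hf'c : Continuous f' := by
    rw [hf']; unfold F₁
    have h1 : Continuous fun x => u (cl x) := huc.comp hclc
    have h2 : Continuous fun x => v (cl x) := hvc.comp hclc
    fun_prop
  have hg'c : Continuous g' := by
    rw [hg']; unfold F₂
    have h1 : Continuous fun x => u (cl x) := huc.comp hclc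
    have h2 : Continuous fun x => v (cl x) := hvc.comp hclc
    fun_prop
  have aef : ∀ᵐ x, x ∈ Ioo 0 L → f x = f' x := by
    filter_upwards [aeP, aeQ] with x h1 h2 hx
    rw [hf, hf']
    simp only
    rw [hclm x (Ioo_subset_Icc_self hx), h1 hx, h2 hx]
  have aeg : ∀ᵐ x, x ∈ Ioo 0 L → g x = g' x := by
    filter_upwards [aeP, aeQ] with x h1 h2 hx
    rw [hg, hg']
    simp only
    rw [hclm x (Ioo_subset_Icc_self hx), h1 hx, h2 hx]
  -- the new potentials agree with the old ones on `[0, L]`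
  have hsame : ∀ (F F' : ℝ → ℝ), (∀ᵐ x, x ∈ Ioo 0 L → F x = F' x) →
      ∀ x ∈ Icc 0 L, P7a_u L F x = P7a_u L F' x := by
    intro F F' hae x hx
    have hLne : ∀ᵐ x : ℝ, x ≠ L := by
      rw [ae_iff]; simp
    have h1 : ∀ s ∈ Icc 0 L, ∫ r in (0 : ℝ)..s, F r = ∫ r in (0 : ℝ)..s, F' r := by
      intro s hs
      apply intervalIntegral.integral_congr_ae
      filter_upwards [hae, hLne] with r hr hrL hrm
      rw [uIoc_of_le hs.1] at hrm
      exact hr ⟨hrm.1, lt_of_le_of_ne (hrm.2.trans hs.2) hrL⟩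
    have h2 : ∀ s ∈ Icc 0 L, ∫ t in (0 : ℝ)..s, (∫ r in (0 : ℝ)..t, F r) =
        ∫ t in (0 : ℝ)..s, (∫ r in (0 : ℝ)..t, F' r) := by
      intro s hs
      apply intervalIntegral.integral_congr
      intro t ht
      rw [uIcc_of_le hs.1] at ht
      exact h1 t ⟨ht.1, ht.2.trans hs.2⟩
    unfold P7a_u
    rw [h2 x hx, h2 L ⟨hL.le, le_refl L⟩]
  have hsu := hsame f f' aef
  have hsv := hsame g g' aeg
  refine ⟨P7a_u L f', P7a_u L g', ⟨?_, P7a_u' L f', P7a_u' L g', ?_⟩, P7a_zero L _, P7a_zero L _,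
    P7a_L hL _, P7a_L hL _, ?_, ?_⟩
  · intro x hx
    rw [← hsu x hx, ← hsv x hx]
    exact ⟨bu x hx, bv x hx⟩
  · intro x hx
    have d1 := P7a_deriv (L := L) (fun x y => hf'c.intervalIntegrable x y) x
    have d2 := P7a_deriv (L := L) (fun x y => hg'c.intervalIntegrable x y) x
    have d3 := P7a_deriv2 (L := L) hf'c x
    have d4 := P7a_deriv2 (L := L) hg'c x
    have e1 : f' x = F₁ a (P7a_u L f' x) (P7a_u L g' x) := by
      rw [← hsu x hx, ← hsv x hx, hf']
      simp only
      rw [hclm x hx]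
    have e2 : g' x = F₂ b (P7a_u L f' x) (P7a_u L g' x) := by
      rw [← hsu x hx, ← hsv x hx, hg']
      simp only
      rw [hclm x hx]
    rw [← e1, ← e2]
    exact ⟨d1, d2, d3, d4⟩
  · rw [ae_restrict_iff' measurableSet_Ioo]
    filter_upwards [aeP] with x h1 hx
    rw [h1 hx, ← hsu x (Ioo_subset_Icc_self hx)]
  · rw [ae_restrict_iff' measurableSet_Ioo]
    filter_upwards [aeQ] with x h1 hx
    rw [h1 hx, ← hsv x (Ioo_subset_Icc_self hx)]

end Pool.Agent.H62.LV
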