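import Pool.Agent.Helper33.LV.P4
import Pool.Agent.H62.LV.Lin

/-!
Part P7b of the Lotka-Volterra control problem: restarting and ordering solutions of the
cooperative system.
-/

namespace Pool.Agent.H62.LV

open MeasureTheory Set Filter Topology

private theorem P7b_regp {a b L : ℝ} {p₀ q₀ : ℝ → ℝ} {p q : ℝ → ℝ → ℝ}
    (hs : Coop a b L p₀ q₀ p q) : Reg L p ∧ Reg L q := by
  have hsub : Ioi (0 : ℝ) ×ˢ Ioo 0 L ⊆ Ioi (0 : ℝ) ×ˢ Icc 0 L :=
    prod_mono_right Ioo_subset_Icc_self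
  refine ⟨⟨hs.contp.mono hsub, fun T => ⟨1, fun t ht x hx => ?_⟩⟩,
    ⟨hs.contq.mono hsub, fun T => ⟨1, fun t ht x hx => ?_⟩⟩⟩
  · have h := (hs.mem t ht.1 x (Ioo_subset_Icc_self hx)).1
    rw [abs_of_nonneg h.1]; exact h.2
  · have h := (hs.mem t ht.1 x (Ioo_subset_Icc_self hx)).2
    rw [abs_of_nonneg h.1]; exact h.2

private theorem P7b_regF {a b L : ℝ} {p₀ q₀ : ℝ → ℝ} {p q : ℝ → ℝ → ℝ}
    (hs : Coop a b L p₀ q₀ p q) : Reg L (fun t x => F₁ a (p t x) (q t x)) ∧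
      Reg L (fun t x => F₂ b (p t x) (q t x)) := by
  have hp := (P7b_regp hs).1.cont
  have hq := (P7b_regp hs).2.cont
  refine ⟨⟨?_, fun T => ⟨2 + 2 * |a|, fun t ht x hx => ?_⟩⟩,
    ⟨?_, fun T => ⟨1 + |b|, fun t ht x hx => ?_⟩⟩⟩
  · unfold F₁
    exact hp.mul (((continuousOn_const.sub hp)).add (continuousOn_const.mul hq))
  · obtain ⟨h1, h2⟩ := hs.mem t ht.1 x (Ioo_subset_Icc_self hx)
    have e1 : |p t x| ≤ 1 := by rw [abs_of_nonneg h1.1]; exact h1.2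
    have e2 : |1 - p t x| ≤ 1 := by rw [abs_of_nonneg (by linarith [h1.2])]; linarith [h1.1]
    have e3 : |q t x - 1| ≤ 1 := by
      rw [abs_le]; constructor <;> linarith [h2.1, h2.2]
    have e4 : F₁ a (p t x) (q t x) = p t x * ((1 - p t x) + a * (q t x - 1)) := by
      unfold F₁; ring
    show |F₁ a (p t x) (q t x)| ≤ _
    rw [e4, abs_mul]
    have e5 : |(1 - p t x) + a * (q t x - 1)| ≤ 1 + |a| := by
      refine (abs_add_le _ _).trans ?_
      rw [abs_mul]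
      exact add_le_add e2 (mul_le_of_le_one_right (abs_nonneg a) e3)
    calc |p t x| * |(1 - p t x) + a * (q t x - 1)| ≤ 1 * (1 + |a|) :=
          mul_le_mul e1 e5 (abs_nonneg _) zero_le_one
      _ ≤ 2 + 2 * |a| := by linarith [abs_nonneg a]
  · unfold F₂
    exact (continuousOn_const.sub hq).mul ((continuousOn_const.mul hp).sub hq)
  · obtain ⟨h1, h2⟩ := hs.mem t ht.1 x (Ioo_subset_Icc_self hx)
    have e1 : |1 - q t x| ≤ 1 := by
      rw [abs_of_nonneg (by linarith [h2.2])]; linarith [h2.1]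
    have e2 : |b * p t x - q t x| ≤ |b| + 1 := by
      refine (abs_sub _ _).trans ?_
      rw [abs_mul, abs_of_nonneg h1.1, abs_of_nonneg h2.1]
      exact add_le_add (mul_le_of_le_one_right (abs_nonneg b) h1.2) h2.2
    show |F₂ b (p t x) (q t x)| ≤ _
    unfold F₂
    rw [abs_mul]
    calc |1 - q t x| * |b * p t x - q t x| ≤ 1 * (|b| + 1) :=
          mul_le_mul e1 e2 (abs_nonneg _) zero_le_one
      _ = 1 + |b| := by ring

theorem coop_shift {a b L : ℝ} (hL : 0 < L) {p₀ q₀ : ℝ → ℝ} {p q : ℝ → ℝ → ℝ}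
    (hs : Coop a b L p₀ q₀ p q) {t₀ : ℝ} (ht₀ : 0 < t₀) :
    Coop a b L (p t₀) (q t₀) (fun t x => p (t₀ + t) x) (fun t x => q (t₀ + t) x) := by
  obtain ⟨rp, rq⟩ := P7b_regp hs
  obtain ⟨rF, rG⟩ := P7b_regF hs
  have hshift : ∀ {w : ℝ → ℝ → ℝ},
      ContinuousOn (fun z : ℝ × ℝ => w z.1 z.2) (Ioi 0 ×ˢ Icc 0 L) →
      ContinuousOn (fun z : ℝ × ℝ => w (t₀ + z.1) z.2) (Ioi 0 ×ˢ Icc 0 L) := by
    intro w hw
    exact hw.comp (f := fun z : ℝ × ℝ => ((t₀ + z.1, z.2) : ℝ × ℝ)) (by fun_prop)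
      (fun z hz => ⟨by have : (0 : ℝ) < z.1 := hz.1; exact add_pos ht₀ this, hz.2⟩)
  refine ⟨hshift hs.contp, hshift hs.contq, fun t ht x hx => hs.mem _ (add_pos ht₀ ht) x hx,
    fun t ht => hs.bdry _ (add_pos ht₀ ht), ?_, ?_⟩
  · exact weak_shift hL rp rF (bdata_const 0) (bdata_const 0) hs.weakp ht₀
  · exact weak_shift hL rq rG (bdata_const 0) (bdata_const 0) hs.weakq ht₀

theorem coop_mono {a b L : ℝ} (ha : 0 < a) (hb : 0 < b) (hL : 0 < L)
    {p₀ q₀ p₀' q₀' : ℝ → ℝ} {p q p' q' : ℝ → ℝ → ℝ}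
    (ip : IntervalIntegrable p₀ volume 0 L) (iq : IntervalIntegrable q₀ volume 0 L)
    (ip' : IntervalIntegrable p₀' volume 0 L) (iq' : IntervalIntegrable q₀' volume 0 L)
    (hs : Coop a b L p₀ q₀ p q) (hs' : Coop a b L p₀' q₀' p' q')
    (h1 : ∀ x ∈ Ioo 0 L, p₀ x ≤ p₀' x) (h2 : ∀ x ∈ Ioo 0 L, q₀ x ≤ q₀' x) :
    ∀ t, 0 < t → ∀ x ∈ Icc 0 L, p t x ≤ p' t x ∧ q t x ≤ q' t x := by
  intro T hT
  obtain ⟨rp, rq⟩ := P7b_regp hs
  obtain ⟨rF, rG⟩ := P7b_regF hs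
  obtain ⟨rp', rq'⟩ := P7b_regp hs'
  obtain ⟨rF', rG'⟩ := P7b_regF hs'
  have z := bdata_const 0
  have W1 := WeakHeat.lin hL rp' rF' rp rF ip' ip z z z z hs'.weakp hs.weakp 1 (-1)
  have W2 := WeakHeat.lin hL rq' rG' rq rG iq' iq z z z z hs'.weakq hs.weakq 1 (-1)
  have key := comparison (T := T) (K := 1 + a + b) (κ := 2 + 2 * a + 2 * b) hL hT
    (by linarith) (by linarith) (rp'.lin rp 1 (-1)) (rq'.lin rq 1 (-1)) (rF'.lin rF 1 (-1))
    (rG'.lin rG 1 (-1)) ((ip'.const_mul 1).add (ip.const_mul (-1)))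
    ((iq'.const_mul 1).add (iq.const_mul (-1)))
    (fun x hx => by have := h1 x hx; linarith) (fun x hx => by have := h2 x hx; linarith)
    (z.lin z 1 (-1)) (z.lin z 1 (-1)) (z.lin z 1 (-1)) (z.lin z 1 (-1))
    (fun _ _ => by norm_num) (fun _ _ => by norm_num) (fun _ _ => by norm_num)
    (fun _ _ => by norm_num) W1 W2 ?_
  · intro x hx
    rcases eq_or_lt_of_le hx.1 with h0 | h0
    · obtain ⟨a1, _, a3, _⟩ := hs.bdry T hT
      obtain ⟨b1, _, b3, _⟩ := hs'.bdry T hT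
      rw [← h0, a1, a3, b1, b3]; exact ⟨le_refl _, le_refl _⟩
    rcases eq_or_lt_of_le hx.2 with h0' | h0'
    · obtain ⟨_, a2, _, a4⟩ := hs.bdry T hT
      obtain ⟨_, b2, _, b4⟩ := hs'.bdry T hT
      rw [h0', a2, a4, b2, b4]; exact ⟨le_refl _, le_refl _⟩
    have := key T ⟨hT, le_refl T⟩ x ⟨h0, h0'⟩
    constructor <;> linarith [this.1, this.2]
  · intro t ht x hx m hm w1 w2
    have hx' := Ioo_subset_Icc_self hx
    obtain ⟨hp, hq⟩ := hs.mem t ht.1 x hx'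
    obtain ⟨hp', hq'⟩ := hs'.mem t ht.1 x hx'
    revert w1 w2
    generalize p t x = P at *
    generalize q t x = Q at *
    generalize p' t x = P' at *
    generalize q' t x = Q' at *
    intro w1 w2
    have e1 : 1 * F₁ a P' Q' + -1 * F₁ a P Q + (1 + a + b) * (1 * P' + -1 * P) =
        (2 + b - (P + P') + a * Q') * (P' - P) + a * P * (Q' - Q) := by
      unfold F₁; ring
    have e2 : 1 * F₂ b P' Q' + -1 * F₂ b P Q + (1 + a + b) * (1 * Q' + -1 * Q) =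
        b * (1 - Q') * (P' - P) + (a + b - b * P + Q + Q') * (Q' - Q) := by
      unfold F₂; ring
    have v1 : -m ≤ P' - P := by linarith
    have v2 : -m ≤ Q' - Q := by linarith
    have gen : ∀ c₁ c₂ : ℝ, 0 ≤ c₁ → 0 ≤ c₂ → c₁ + c₂ ≤ 2 + 2 * a + 2 * b →
        -((2 + 2 * a + 2 * b) * m) ≤ c₁ * (P' - P) + c₂ * (Q' - Q) := by
      intro c₁ c₂ n1 n2 n3
      have k1 := mul_le_mul_of_nonneg_left v1 n1
      have k2 := mul_le_mul_of_nonneg_left v2 n2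
      have k3 := mul_le_mul_of_nonneg_right n3 hm
      linarith
    constructor
    · rw [e1]
      refine gen _ _ ?_ (mul_nonneg ha.le hp.1) ?_
      · nlinarith [hp.2, hp'.2, mul_nonneg ha.le hq'.1]
      · nlinarith [hp.1, hp'.1, mul_le_mul_of_nonneg_left hq'.2 ha.le,
          mul_le_mul_of_nonneg_left hp.2 ha.le]
    · rw [e2]
      refine gen _ _ (mul_nonneg hb.le (by linarith [hq'.2])) ?_ ?_
      · nlinarith [mul_nonneg hb.le (by linarith [hp.2] : 0 ≤ 1 - P), hq.1, hq'.1]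
      · nlinarith [mul_nonneg hb.le hp.1, mul_nonneg hb.le hq'.1, hq.2, hq'.2]

end Pool.Agent.H62.LV
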